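import Pool.Agent.Lib.MP_181146_gt.HT.All

/-!
# The finiteness obstruction of H-spaces with finite fundamental group
-/

namespace Pool.Agent.Results.MP_181146_gt.AllFiniteGroups

open HSp

/-- **Theorem.**  Let `X` be a path-connected, locally path-connected H-space (`μ : X × X → X`
continuous, its restriction to `X ∨ X` freely homotopic to the fold map), `p : E → X` its universal
covering, whose group `Deck p` of deck transformations (isomorphic to the fundamental group of `X`)
is finite.  Suppose that the lowest nonvanishing homology group `H_n(E; ℤ)`, `n > 0`, if there is
one, is infinite (`LowInf E`).  Let `C` be a bounded complex of finitely generated projective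
modules over the group ring `ℤ[Deck p]` which is chain homotopy equivalent over `ℤ[Deck p]` to the
singular chain complex of `E`.  Then `C_even ⊕ (free) ≅ C_odd ⊕ (free)`, that is, the finiteness
obstruction `∑ (-1)^i [C_i]` vanishes in the reduced projective class group of `ℤ[Deck p]`; if the
group is not trivial one can take the same free module on both sides. -/
theorem result {X E : Type} [TopologicalSpace X] [TopologicalSpace E] [PathConnectedSpace X]
    [LocallyPathConnectedSpace X] [SimplyConnectedSpace E] (e : X) (μ : C(X × X, X))
    (hμ : IsHMul e μ) (p : E → X) (hp : IsCoveringMap p) (hf : Finite (Deck p))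
    (hL : LowInf E) (C : Cpl (GR (Deck p))) (K : ℕ) (hC : C.IsPerf K)
    (heq : EqvSing (Deck p) C) :
    ∃ a b : ℕ, (1 < Nat.card (Deck p) → a = b) ∧ C.StEq K a b :=
  HTx.aTopL X E p hp e μ hμ hf hL C K hC heq

end Pool.Agent.Results.MP_181146_gt.AllFiniteGroups
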