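import Pool.Agent.Lib.MP_181146_gt.HS.All
import Pool.Agent.Lib.MP_181146_gt.HS.SlimT

/-!
# Finiteness obstruction of H-spaces with finite cyclic fundamental group
-/

namespace Pool.Agent.Results.MP_181146_gt.CyclicFundamentalGroup

open HSp

/-- **Theorem.**  Let `X` be a path-connected H-space (`μ : X × X → X` continuous, its restriction
to `X ∨ X` freely homotopic to the fold map), `p : E → X` a path-connected covering, for instance
the universal covering, whose group `Deck p` of deck transformations is finite cyclic, of order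
`n`.  Let `C` be a bounded complex of finitely generated projective modules over the group ring
`ℤ[Deck p]` which is chain homotopy equivalent over `ℤ[Deck p]` to the singular chain complex of
`E`.  If two different primes `q`, `q'` divide `n`, suppose that the alternating sums
`∑ (-1)^i i b_i` of the mod `q` and mod `q'` Betti numbers of `C ⊗ 𝔽_q`, `C ⊗ 𝔽_q'` (tensor products
over `ℤ[Deck p]`) agree (no condition if `n` is a prime power).  Then
`C_even ⊕ (free) ≅ C_odd ⊕ (free)`, that is, `∑ (-1)^i [C_i] = 0` in the reduced projective class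
group of `ℤ[Deck p]`; if `n > 1` one can take the same free module on both sides. -/
theorem result {X E : Type} [TopologicalSpace X] [TopologicalSpace E] [PathConnectedSpace X]
    [PathConnectedSpace E] (e : X) (μ : C(X × X, X)) (hμ : IsHMul e μ)
    (p : E → X) (hp : IsCoveringMap p) (hc : IsCyclic (Deck p)) (hf : Finite (Deck p))
    (C : Cpl (GR (Deck p))) (K : ℕ) (hC : C.IsPerf K) (heq : EqvSing (Deck p) C)
    (hb : ∀ q q' : ℕ, q.Prime → q ∣ Nat.card (Deck p) → q'.Prime → q' ∣ Nat.card (Deck p) →
      q ≠ q' → ∀ b b' : ℕ → ℕ, C.IsBetti q b → C.IsBetti q' b' →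
        ∑ i ∈ Finset.range (2 * K), (-1 : ℤ) ^ i * (i : ℤ) * (b i : ℤ) =
        ∑ i ∈ Finset.range (2 * K), (-1 : ℤ) ^ i * (i : ℤ) * (b' i : ℤ)) :
    ∃ a b : ℕ, (1 < Nat.card (Deck p) → a = b) ∧ C.StEq K a b := by
  have hfc : ∀ q : ℕ, q.Prime → ∀ i, Finite (CoV (Deck p) q (C.X i)) := fun q hq i => by
    have : Module.Finite (MonoidAlgebra ℤ (Deck p)) (C.X i) := hC.fin i
    exact finite_coV (Deck p) q hq.pos (C.X i)
  have hbp : ∀ (q : ℕ) (b : ℕ → ℕ), IsBettiP (Deck p) q (fun i => C.cx.X i)
      (fun i => (C.cx.d (i + 1) i).hom) b → IsBettiP (Deck p) q C.X C.dL b := by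
    intro q b h
    have e1 : (fun i => (C.cx.d (i + 1) i).hom) = C.dL := funext fun i => C.cx_d i
    exact e1 ▸ h
  obtain ⟨a, b, hab, h⟩ := pMainB E (Deck p) (pTN X E p hp e μ hμ) hc hf C.cx hC.fin hC.proj K
    hC.bdd (C.cx_equiv heq) (by
      intro q q' hq hqn hq' hqn' b b' hB hB'
      have h1 := hbp q b hB
      have h2 := hbp q' b' hB'
      by_cases h : q = q'
      · subst h
        have : ∀ i, Module.Finite (MonoidAlgebra ℤ (Deck p)) (C.X i) := hC.fin
        rw [bettiP_unique (Deck p) q hq C.X C.dL b b' h1 h2]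
      · exact hb q q' hq hqn hq' hqn' h b b' (Cpl.isBetti_of q (hfc q hq) b h1)
          (Cpl.isBetti_of q' (hfc q' hq') b' h2))
  exact ⟨a, b, hab, h⟩

end Pool.Agent.Results.MP_181146_gt.CyclicFundamentalGroup
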