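import Pool.Agent.Lib.MP_181146_gt.HE.All
import Pool.Agent.Lib.MP_181146_gt.HE.SlimE
import Pool.Agent.Lib.MP_181146_gt.HS.SlimT

/-!
# Finiteness obstruction of H-spaces with finite fundamental group, even dimension
-/

namespace Pool.Agent.Results.MP_181146_gt.EvenDimension

open HSp

theorem stEq_one {R : Type} [Ring R] (C : Cpl R) (K a b : ℕ) (h : C.StEqN K 1 a b) :
    C.StEq K a b := by
  obtain ⟨h⟩ := h
  refine ⟨?_⟩
  let e1 : (Fin 1 → ∀ j : Fin K, C.X (2 * j)) ≃ₗ[R] (∀ j : Fin K, C.X (2 * j)) :=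
    LinearEquiv.funUnique (Fin 1) R _
  let e2 : (Fin 1 → ∀ j : Fin K, C.X (2 * j + 1)) ≃ₗ[R] (∀ j : Fin K, C.X (2 * j + 1)) :=
    LinearEquiv.funUnique (Fin 1) R _
  exact ((e1.prodCongr (LinearEquiv.refl _ _)).symm.trans h).trans
    (e2.prodCongr (LinearEquiv.refl _ _))

/-- **Theorem.**  Let `X` be a path-connected, locally path-connected H-space (`μ : X × X → X`
continuous, its restriction to `X ∨ X` freely homotopic to the fold map), `p : E → X` its universal
covering, and suppose that the group `Deck p` of deck transformations is finite.  Let `C` be a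
bounded complex of finitely generated projective modules over the group ring `ℤ[Deck p]` which is
chain homotopy equivalent over `ℤ[Deck p]` to the singular chain complex of `E`, and suppose that
the top degree of the rational homology of `E` is even.  Then
`C_even ⊕ C_even ⊕ (free) ≅ C_odd ⊕ C_odd ⊕ (free)`, that is, `2 ∑ (-1)^i [C_i] = 0` in the reduced
projective class group of `ℤ[Deck p]`; and if the order of `Deck p` is odd, then
`C_even ⊕ (free) ≅ C_odd ⊕ (free)`, that is, `∑ (-1)^i [C_i] = 0`. -/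
theorem result {X E : Type} [TopologicalSpace X] [TopologicalSpace E] [PathConnectedSpace X]
    [LocallyPathConnectedSpace X] [SimplyConnectedSpace E] (e : X) (μ : C(X × X, X))
    (hμ : IsHMul e μ) (p : E → X) (hp : IsCoveringMap p) (hf : Finite (Deck p))
    (C : Cpl (GR (Deck p))) (K : ℕ) (hC : C.IsPerf K) (heq : EqvSing (Deck p) C)
    (d : ℕ) (hd : Even d) (ht : IsTopS E d) :
    (∃ a b : ℕ, C.StEqN K 2 a b) ∧ (Odd (Nat.card (Deck p)) → ∃ a b : ℕ, C.StEq K a b) := by
  have hcy : ∀ (i : ℕ) (z : (SC E).X i),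
      (∀ j, ((SC E).d i j).hom z = 0) ↔ IsCyS E i (show SI E i from z) := by
    intro i z
    cases i with
    | zero =>
      refine ⟨fun _ => trivial, fun _ j => ?_⟩
      rw [(SC E).shape 0 j (by simp)]
      rfl
    | succ i =>
      refine ⟨fun h => h i, fun h j => ?_⟩
      by_cases hj : j + 1 = i + 1
      · obtain rfl : j = i := by omega
        exact h
      · rw [(SC E).shape (i + 1) j (by simpa using hj)]
        rfl
  have ht' : HEp.IsTopDeg E d := by
    obtain ⟨⟨z, hz, hn⟩, h⟩ := ht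
    refine ⟨⟨z, (hcy d z).2 hz, fun n h0 => ?_⟩, fun i hi z hz => h i hi z ((hcy i z).1 hz)⟩
    rintro ⟨w, hw⟩
    exact hn n h0 w hw
  have key := fun n hn => HEp.pHEtop X E p hp e μ hμ hf C.cx hC.fin hC.proj K hC.bdd
    (C.cx_equiv heq) d hd ht' n hn
  refine ⟨key 2 (Or.inl rfl), fun ho => ?_⟩
  obtain ⟨a, b, h⟩ := key 1 (Or.inr ⟨rfl, ho⟩)
  exact ⟨a, b, stEq_one C K a b h⟩

end Pool.Agent.Results.MP_181146_gt.EvenDimension
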