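import Pool.Agent.Lib.MP_181146_gt.HS.AllT
import Pool.Agent.Lib.MP_181146_gt.HS.SlimCT

/-!
# Finiteness obstruction of H-spaces whose fundamental group is a finite noncyclic p-group
-/

namespace Pool.Agent.Results.MP_181146_gt.FundamentalPGroup

open HSp

/-- **Theorem.**  Let `X` be a path-connected H-space (`μ : X × X → X` continuous, its restriction
to `X ∨ X` freely homotopic to the fold map), `p : E → X` a path-connected covering, for instance
the universal covering, whose group `Deck p` of deck transformations is a finite `q`-group, `q` a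
prime number, and not cyclic (it is abelian, as a consequence).  Let `C` be a bounded complex of
finitely generated projective modules over the group ring `Λ = ℤ[Deck p]` which is chain homotopy
equivalent over `Λ` to the singular chain complex of `E`.  Then there are an integer `a > 0`, prime
to `q`, and `m` with `C_even ⊕ Λ^(m+1) ≅ C_odd ⊕ J_a ⊕ Λ^m`, where `J_a` is the ideal of all
elements whose augmentation is divisible by `a`, that is, `∑ (-1)^i [C_i] = [J_a]` lies in the Swan
subgroup of the reduced projective class group of `Λ`. -/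
theorem result {X E : Type} [TopologicalSpace X] [TopologicalSpace E] [PathConnectedSpace X]
    [PathConnectedSpace E] (e : X) (μ : C(X × X, X)) (hμ : IsHMul e μ)
    (p : E → X) (hp : IsCoveringMap p) (q : ℕ) (hq : q.Prime) (hG : IsPGroup q (Deck p))
    (hf : Finite (Deck p)) (hc : ¬ IsCyclic (Deck p))
    (C : Cpl (GR (Deck p))) (K : ℕ) (hC : C.IsPerf K) (heq : EqvSing (Deck p) C) :
    ∃ a m : ℕ, 0 < a ∧ a.Coprime q ∧ C.StEqJ K (SwI (Deck p) a) m := by
  have : Fact q.Prime := ⟨hq⟩
  obtain ⟨a, m, h0, h1, ⟨h⟩⟩ := pMainC E (Deck p) (pTN X E p hp e μ hμ) q hG hc hf C.cx hC.fin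
    hC.proj K hC.bdd (C.cx_equiv heq)
  have e1 : SwI (Deck p) a = (SwJ (Deck p) a : Submodule (GR (Deck p)) (GR (Deck p))) :=
    SetLike.coe_injective (swI_eq (Deck p) a)
  refine ⟨a, m, h0, h1, ?_⟩
  unfold Cpl.StEqJ
  rw [e1]
  exact ⟨h⟩

end Pool.Agent.Results.MP_181146_gt.FundamentalPGroup
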